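import Pool.Agent.U588.LBP.Stm
import Pool.Agent.Helper970.V7.P_proj_res
import Pool.Agent.Helper970.V7.P_homology_succ
import Pool.Agent.Helper970.V7.P_homology_zero

set_option autoImplicit false
set_option linter.unusedSectionVars false

/-! Project LB, package DIRU, part LD: a projective resolution computes the derived functors. -/

namespace Pool.Agent.U56.LBP

open Pool.Agent.U588.LBP U722.FF V7N CategoryTheory

attribute [local instance] V7N.bcF_additive VN831.bcFunctor_additive

theorem isZero_iff {R : Type} [Ring R] (M : ModuleCat.{0} R) :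
    Limits.IsZero M ↔ Subsingleton M := by
  constructor
  · intro h
    exact ModuleCat.subsingleton_of_isZero h
  · intro h
    exact ModuleCat.isZero_of_subsingleton M

theorem succ_iff {R : Type} [Ring R] (K : ChainComplex (ModuleCat.{0} R) ℕ) (n : ℕ) :
    Limits.IsZero (K.homology (n + 1)) ↔
      ∀ z : K.X (n + 1), (K.d (n + 1) n).hom z = 0 → ∃ w, (K.d (n + 1 + 1) (n + 1)).hom w = z := by
  obtain ⟨e⟩ := V7N.homology_succ K n
  rw [isZero_iff, e.toEquiv.subsingleton_congr, Submodule.Quotient.subsingleton_iff]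
  constructor
  · intro h z hz
    have h1 : (⟨z, hz⟩ : LinearMap.ker (K.d (n + 1) n).hom) ∈
        (LinearMap.range (K.d (n + 1 + 1) (n + 1)).hom).submoduleOf
          (LinearMap.ker (K.d (n + 1) n).hom) := by
      rw [h]
      trivial
    exact h1
  · intro h
    rw [eq_top_iff]
    rintro ⟨z, hz⟩ _
    exact h z hz

theorem zero_iff {R : Type} [Ring R] (K : ChainComplex (ModuleCat.{0} R) ℕ) :
    Limits.IsZero (K.homology 0) ↔ ∀ z : K.X 0, ∃ w, (K.d 1 0).hom w = z := by
  obtain ⟨e⟩ := V7N.homology_zero K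
  rw [isZero_iff, e.toEquiv.subsingleton_congr, Submodule.Quotient.subsingleton_iff]
  constructor
  · intro h z
    have h1 : z ∈ LinearMap.range (K.d 1 0).hom := by
      rw [h]
      trivial
    exact h1
  · intro h
    rw [eq_top_iff]
    intro z _
    exact h z

theorem key_succ {A U : Type} [Ring A] [Ring U] (F : ModuleCat.{0} A ⥤ ModuleCat.{0} U) [F.Additive]
    (X : ℕ → ModuleCat.{0} A) (dd : ∀ n, X (n + 1) ⟶ X n) (sq : ∀ n, dd (n + 1) ≫ dd n = 0)
    (n : ℕ) :
    Limits.IsZero (((F.mapHomologicalComplex _).obj (ChainComplex.of X dd sq)).homology (n + 1)) ↔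
      ∀ z : F.obj (X (n + 1)), (F.map (dd n)).hom z = 0 →
        ∃ w : F.obj (X (n + 1 + 1)), (F.map (dd (n + 1))).hom w = z := by
  rw [succ_iff]
  have e1 : (ChainComplex.of X dd sq).d (n + 1) n = dd n := ChainComplex.of_d _ _ _
  have e2 : (ChainComplex.of X dd sq).d (n + 1 + 1) (n + 1) = dd (n + 1) :=
    ChainComplex.of_d _ _ _
  have f1 : ((F.mapHomologicalComplex _).obj (ChainComplex.of X dd sq)).d (n + 1) n =
      F.map (dd n) := by
    show F.map ((ChainComplex.of X dd sq).d (n + 1) n) = _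
    rw [e1]
  have f2 : ((F.mapHomologicalComplex _).obj (ChainComplex.of X dd sq)).d (n + 1 + 1) (n + 1) =
      F.map (dd (n + 1)) := by
    show F.map ((ChainComplex.of X dd sq).d (n + 1 + 1) (n + 1)) = _
    rw [e2]
  rw [f1, f2]
  exact Iff.rfl

theorem key_zero {A U : Type} [Ring A] [Ring U] (F : ModuleCat.{0} A ⥤ ModuleCat.{0} U) [F.Additive]
    (X : ℕ → ModuleCat.{0} A) (dd : ∀ n, X (n + 1) ⟶ X n) (sq : ∀ n, dd (n + 1) ≫ dd n = 0) :
    Limits.IsZero (((F.mapHomologicalComplex _).obj (ChainComplex.of X dd sq)).homology 0) ↔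
      ∀ z : F.obj (X 0), ∃ w : F.obj (X (0 + 1)), (F.map (dd 0)).hom w = z := by
  rw [zero_iff]
  have e1 : (ChainComplex.of X dd sq).d 1 0 = dd 0 :=
    ChainComplex.of_d (V := ModuleCat.{0} A) (X := X) (d := dd) (j := 0)
  have f1 : ((F.mapHomologicalComplex _).obj (ChainComplex.of X dd sq)).d 1 0 =
      F.map (dd 0) := by
    show F.map ((ChainComplex.of X dd sq).d 1 0) = _
    rw [e1]
  rw [f1]
  exact Iff.rfl

theorem t_LD : S_LD := by
  intro G U _ _ c M _ _ P _ _ d ε hproj he h0 h1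
  have sq : ∀ n, ModuleCat.ofHom (d (n + 1)) ≫ ModuleCat.ofHom (d n) = 0 := by
    intro n
    apply ModuleCat.hom_ext
    apply LinearMap.ext
    intro v
    exact (h1 n _).2 ⟨v, rfl⟩
  have hde : ModuleCat.ofHom (d 0) ≫ ModuleCat.ofHom ε = 0 := by
    apply ModuleCat.hom_ext
    apply LinearMap.ext
    intro v
    exact (h0 _).2 ⟨v, rfl⟩
  obtain ⟨Q, hQ⟩ := V7N.gen_res (fun n => ModuleCat.of (MonoidAlgebra ℤ G) (P n))
    (fun n => ModuleCat.ofHom (d n)) sq (ModuleCat.of (MonoidAlgebra ℤ G) M)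
    (ModuleCat.ofHom ε)
    (fun n => (IsProjective.iff_projective (R := MonoidAlgebra ℤ G) (P n)).1 (hproj n))
    hde he (fun v hv => (h0 v).1 hv) (fun n v hv => (h1 n v).1 hv)
  refine ⟨fun n => ?_, ?_⟩
  · have i := Q.isoLeftDerivedObj (bcF c) (n + 1)
    rw [hQ] at i
    rw [i.isZero_iff]
    exact key_succ (bcF c) _ _ sq n
  · have i := Q.isoLeftDerivedObj (bcF c) 0
    rw [hQ] at i
    rw [i.isZero_iff]
    exact key_zero (bcF c) _ _ sq

end Pool.Agent.U56.LBP
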